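import Mathlib
import Pool.Agent.H55.Frm

/-! A temperate frame that is not spatial. -/

namespace Pool.Agent.Results.MP_f10132_gt.Exists

open Set Pool.Agent.H55.Frm

universe u

def P : Type := List Bool

instance : Preorder P where
  le s t := List.IsPrefix (α := Bool) t s
  le_refl s := List.prefix_refl _
  le_trans _ _ _ h1 h2 := List.IsPrefix.trans h2 h1

def root : P := ([] : List Bool)

def ch (t : P) (b : Bool) : P := List.append (α := Bool) t [b]

theorem le_root (s : P) : s ≤ root := List.nil_prefix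

theorem ch_le (t : P) (b : Bool) : ch t b ≤ t := List.prefix_append _ _

theorem ch_ne (t : P) (b : Bool) : ch t b ≠ root := fun h => by
  have := congrArg (List.length (α := Bool)) h
  simp [ch, root] at this

theorem le_ne {s t : P} (h : s ≤ t) (ht : t ≠ root) : s ≠ root := by
  rintro rfl
  exact ht (List.prefix_nil.1 h)

theorem ch_disj {t s : P} (h1 : s ≤ ch t true) (h2 : s ≤ ch t false) : False := by
  have h := List.prefix_of_prefix_length_le (α := Bool) h1 h2 (by simp [ch])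
  have h' := h.eq_of_length (by simp [ch])
  have h3 := List.append_cancel_left (α := Bool) h'
  simp at h3

def jf (U : LowerSet P) : LowerSet P :=
  ⟨{s | root ∈ U ∨ (s ≠ root ∧ ∀ t ≤ s, ∃ v ≤ t, v ∈ U)}, by
    intro s s' h hs
    rcases hs with hs | ⟨h1, h2⟩
    · exact Or.inl hs
    · exact Or.inr ⟨le_ne h h1, fun t ht => h2 t (ht.trans h)⟩⟩

theorem mem_jf {U : LowerSet P} {s : P} :
    s ∈ jf U ↔ root ∈ U ∨ (s ≠ root ∧ ∀ t ≤ s, ∃ v ≤ t, v ∈ U) := Iff.rfl

theorem mem_of_root {U : LowerSet P} (h : root ∈ U) (s : P) : s ∈ U := U.lower (le_root s) h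

theorem mem_inf {U V : LowerSet P} {s : P} : s ∈ U ⊓ V ↔ s ∈ U ∧ s ∈ V := LowerSet.mem_inf_iff

def j : Nucleus (LowerSet P) where
  toFun := jf
  map_inf' U V := by
    ext s
    change s ∈ jf (U ⊓ V) ↔ s ∈ jf U ⊓ jf V
    rw [mem_inf, mem_jf, mem_jf, mem_jf]
    constructor
    · rintro (h | ⟨h1, h2⟩)
      · exact ⟨Or.inl (mem_inf.1 h).1, Or.inl (mem_inf.1 h).2⟩
      · refine ⟨Or.inr ⟨h1, fun t ht => ?_⟩, Or.inr ⟨h1, fun t ht => ?_⟩⟩
        · obtain ⟨v, hv, h⟩ := h2 t ht
          exact ⟨v, hv, (mem_inf.1 h).1⟩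
        · obtain ⟨v, hv, h⟩ := h2 t ht
          exact ⟨v, hv, (mem_inf.1 h).2⟩
    · rintro ⟨h | ⟨h1, h2⟩, h' | ⟨h3, h4⟩⟩
      · exact Or.inl (mem_inf.2 ⟨h, h'⟩)
      · refine Or.inr ⟨h3, fun t ht => ?_⟩
        obtain ⟨v, hv, hv'⟩ := h4 t ht
        exact ⟨v, hv, mem_inf.2 ⟨mem_of_root h v, hv'⟩⟩
      · refine Or.inr ⟨h1, fun t ht => ?_⟩
        obtain ⟨v, hv, hv'⟩ := h2 t ht
        exact ⟨v, hv, mem_inf.2 ⟨hv', mem_of_root h' v⟩⟩
      · refine Or.inr ⟨h1, fun t ht => ?_⟩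
        obtain ⟨v, hv, hv'⟩ := h2 t ht
        obtain ⟨w, hw, hw'⟩ := h4 v (hv.trans ht)
        exact ⟨w, hw.trans hv, mem_inf.2 ⟨U.lower hw hv', hw'⟩⟩
  idempotent' U := by
    intro s hs
    change s ∈ jf (jf U) at hs
    change s ∈ jf U
    rcases mem_jf.1 hs with h | ⟨h1, h2⟩
    · exact mem_of_root h s
    · by_cases hr : root ∈ U
      · exact Or.inl hr
      refine Or.inr ⟨h1, fun t ht => ?_⟩
      obtain ⟨v, hv, h | ⟨-, h⟩⟩ := h2 t ht
      · exact absurd h hr
      · obtain ⟨w, hw, hw'⟩ := h v le_rfl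
        exact ⟨w, hw.trans hv, hw'⟩
  le_apply' U := by
    intro s hs
    change s ∈ jf U
    by_cases hr : root ∈ U
    · exact Or.inl hr
    refine Or.inr ⟨?_, fun t ht => ⟨t, le_rfl, U.lower ht hs⟩⟩
    rintro rfl
    exact hr hs

abbrev L : Type := range j

theorem le_iff {a b : L} : a ≤ b ↔ ∀ s, s ∈ a.1 → s ∈ b.1 := Iff.rfl

theorem fix (a : L) : jf a.1 = a.1 := Nucleus.mem_range.1 a.2

theorem eq_top {a : L} : a = ⊤ ↔ root ∈ a.1 := by
  constructor
  · rintro rfl
    have : j.restrict ⊤ ≤ (⊤ : L) := le_top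
    exact le_iff.1 this root (Or.inl trivial)
  · intro h
    exact top_le_iff.1 (le_iff.2 fun s _ => mem_of_root h s)

/-- a prime element other than the top contains every node other than the root -/
theorem prime_mem {p : L} (hp : ∀ x y, x ⊓ y ≤ p → x ≤ p ∨ y ≤ p) {s : P} (hs : s ≠ root) :
    s ∈ p.1 := by
  by_contra hn
  rw [← fix p, mem_jf] at hn
  push Not at hn
  obtain ⟨t, -, ht⟩ := hn.2 hs
  have key : j.restrict (LowerSet.Iic (ch t true)) ⊓ j.restrict (LowerSet.Iic (ch t false)) ≤ p := by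
    rw [← map_inf]
    have : LowerSet.Iic (ch t true) ⊓ LowerSet.Iic (ch t false) = ⊥ := by
      refine le_bot_iff.1 fun v hv => ?_
      have hv' := mem_inf.1 hv
      exact (ch_disj (LowerSet.mem_Iic_iff.1 hv'.1) (LowerSet.mem_Iic_iff.1 hv'.2)).elim
    rw [this, map_bot]
    exact bot_le
  have h0 : ∀ b, ch t b ∈ (j.restrict (LowerSet.Iic (ch t b))).1 := fun b =>
    j.le_apply (LowerSet.mem_Iic_iff.2 le_rfl)
  rcases hp _ _ key with h | h
  · exact ht _ (ch_le t true) (le_iff.1 h _ (h0 true))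
  · exact ht _ (ch_le t false) (le_iff.1 h _ (h0 false))

theorem prime_le {p : L} (hp : ∀ x y, x ⊓ y ≤ p → x ≤ p ∨ y ≤ p) {a : L} (ha : a ≠ ⊤) : a ≤ p :=
  le_iff.2 fun s hs => prime_mem hp (by
    rintro rfl
    exact ha (eq_top.2 hs))

theorem top_open : ScottOpen ({⊤} : Set L) := by
  refine ⟨fun a b h ha => top_le_iff.1 ((mem_singleton_iff.1 ha) ▸ h), fun D _ _ h => ?_⟩
  by_contra hn
  push Not at hn
  let c : L := j.restrict ⟨{s | s ≠ root}, fun _ _ h hs => le_ne h hs⟩
  have h1 : sSup D ≤ c := sSup_le fun d hd => le_iff.2 fun s hs =>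
    j.le_apply (x := ⟨{s | s ≠ root}, fun _ _ h hs => le_ne h hs⟩) (by
      rintro rfl
      exact hn d hd (eq_top.2 hs))
  rw [mem_singleton_iff.1 h, top_le_iff, eq_top] at h1
  rcases mem_jf.1 h1 with h2 | h2
  · exact h2 rfl
  · exact h2.1 rfl

theorem two {F : Set L} (hF : IsFil F) (hS : ScottOpen F) : F = {⊤} ∨ F = univ := by
  by_cases hb : ⊥ ∈ F
  · exact Or.inr (eq_univ_of_forall fun a => hF.2.1 bot_le hb)
  obtain ⟨p, -, hp, hpr⟩ := exists_prime hF hS hb
  refine Or.inl (eq_singleton_iff_unique_mem.2 ⟨hF.top, fun a ha => ?_⟩)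
  by_contra hn
  exact hp (hF.2.1 (prime_le hpr hn) ha)

theorem result : ∃ (L : Type) (_ : Order.Frame L), Temperate L ∧
    ∀ (X : Type u) [TopologicalSpace X], IsEmpty (L ≃o TopologicalSpace.Opens X) := by
  refine ⟨L, inferInstance, ⟨fun F G hF hF' hG hG' => ?_, top_open⟩, fun X _ => ⟨fun e => ?_⟩⟩
  · have hu : ScottOpen (univ : Set L) :=
      ⟨isUpperSet_univ, fun D ⟨d, hd⟩ _ _ => ⟨d, hd, trivial⟩⟩
    rcases two hF hF' with rfl | rfl
    · have : join {⊤} G = G := by
        ext w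
        constructor
        · rintro ⟨a, ha, b, hb, rfl⟩
          rwa [mem_singleton_iff.1 ha, top_inf_eq]
        · intro hw
          exact ⟨⊤, rfl, w, hw, (top_inf_eq w).symm⟩
      rw [this]
      exact hG'
    · have : join univ G = univ :=
        eq_univ_of_forall fun w => ⟨w, trivial, ⊤, hG.top, by simp⟩
      rw [this]
      exact hu
  · let a : L := j.restrict (LowerSet.Iic (ch root true))
    have ha : a ≠ ⊤ := fun h => by
      rcases mem_jf.1 (eq_top.1 h) with h1 | h1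
      · exact ch_ne root true (List.prefix_nil.1 (LowerSet.mem_Iic_iff.1 h1))
      · exact h1.1 rfl
    have hb : a ≠ ⊥ := fun h => by
      have h1 : a ≤ j.restrict ⊥ := by
        rw [h]
        exact bot_le
      have h2 := le_iff.1 h1 (ch root true) (j.le_apply (LowerSet.mem_Iic_iff.2 le_rfl))
      rcases mem_jf.1 h2 with h3 | ⟨-, h3⟩
      · exact h3
      · obtain ⟨v, -, hv⟩ := h3 _ le_rfl
        exact hv
    have hx : ∃ x, x ∈ e a := by
      by_contra hn
      push Not at hn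
      refine hb (e.injective ?_)
      rw [map_bot]
      exact le_bot_iff.1 fun x hx => (hn x hx).elim
    obtain ⟨x, hx⟩ := hx
    let W : TopologicalSpace.Opens X := ⟨(closure {x})ᶜ, isClosed_closure.isOpen_compl⟩
    have hW : ∀ V : TopologicalSpace.Opens X, V ≤ W ↔ x ∉ V := fun V => by
      constructor
      · intro h hx
        exact h hx (subset_closure rfl)
      · intro h y hy hy'
        obtain ⟨z, hz, rfl⟩ := mem_closure_iff.1 hy' V V.2 hy
        exact h hz
    have hp : ∀ y z, y ⊓ z ≤ e.symm W → y ≤ e.symm W ∨ z ≤ e.symm W := fun y z h => by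
      rw [e.le_symm_apply, hW] at h ⊢
      rw [e.le_symm_apply, hW]
      rw [map_inf] at h
      by_contra hn
      push Not at hn
      exact h ⟨hn.1, hn.2⟩
    have := prime_le hp ha
    rw [e.le_symm_apply, hW] at this
    exact this hx

end Pool.Agent.Results.MP_f10132_gt.Exists
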